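import Pool.Agent.Work.MP_f82ddf_nt.SymSquareMain

/-!
# Lang's equivalence for hypersurfaces with an abelian group of symmetries of rank two
-/

open Pool.Agent.Work.MP_f82ddf_nt

namespace Pool.Agent.Results.MP_f82ddf_nt.AbelianSymmetry

/-- Let `X` be a hypersurface of degree `d` over a number field `K` and let `m ≥ 1` be an integer
which does not divide `d`.  Suppose that the group of projective linear automorphisms of `X` over
the algebraic closure contains a subgroup isomorphic to `(ℤ/m)²`, and that `m` is prime to `d` or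
that matrices which represent elements of this subgroup commute.  Then Lang's equivalence holds
for `X` and every embedding `σ`, and `X_σ` is not Kobayashi hyperbolic. -/
theorem result (K : Type) [Field K] [NumberField K] (n d : ℕ)
    (F : MvPolynomial (Fin (n + 1)) K) (hF : F.IsHomogeneous d) (hF0 : F ≠ 0)
    (m : ℕ) (hm : 0 < m) (hmd : ¬ m ∣ d)
    (φ : Multiplicative (ZMod m × ZMod m) →*
      Matrix.ProjGenLinGroup (Fin (n + 1)) (AlgebraicClosure K))
    (hφ : Function.Injective φ)
    (hsym : ∀ x, ∀ g : Matrix.GeneralLinearGroup (Fin (n + 1)) (AlgebraicClosure K),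
      Matrix.ProjGenLinGroup.mk g = φ x → IsSymmetry F g)
    (hlift : m.Coprime d ∨
      ∀ x y, ∀ g h : Matrix.GeneralLinearGroup (Fin (n + 1)) (AlgebraicClosure K),
        Matrix.ProjGenLinGroup.mk g = φ x → Matrix.ProjGenLinGroup.mk h = φ y → g * h = h * g)
    (σ : K →+* ℂ) :
    LangEquivalence {F} σ ∧ ¬ KobayashiHyperbolic (complexPoints {F} σ) := by
  obtain ⟨C⟩ := exists_curve_of_square_group hF hF0 hm hmd φ hφ hsym hlift
  exact C.both_fail (fun G hG => ⟨d, by rw [Set.mem_singleton_iff.mp hG]; exact hF⟩) σ

end Pool.Agent.Results.MP_f82ddf_nt.AbelianSymmetry
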