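import Pool.Agent.Work.MP_f82ddf_nt.Red.Final

/-!
# Lang's conjecture is equivalent to its case for smooth complete intersections of two
hypersurfaces of large bidegrees in a product of two projective spaces
-/

open MvPolynomial
open Pool.Agent.Work.MP_f82ddf_nt

namespace Pool.Agent.Results.MP_f82ddf_nt.CompleteIntersections

/-- For all `n₀` and `δ`, Lang's equivalence holds for all projective varieties over number fields
(singular ones included) if and only if it holds for all smooth complete intersections
`Y : F(x, z) = H(z) = 0` in the product of the projective spaces of dimensions `n` and `n + 2`,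
where `n₀ ≤ n`, the form `F` has bidegree `(d, 1)`, the form `H` has degree `h`, and `d` and `h`
are at least `δ(n)`. -/
theorem result (n₀ : ℕ) (δ : ℕ → ℕ) :
    (∀ (K : Type) [Field K] [NumberField K] (n d h : ℕ)
      (F : MvPolynomial (Fin (n + 1) ⊕ Fin (n + 2 + 1)) K)
      (H : MvPolynomial (Fin (n + 2 + 1)) K) (σ : K →+* ℂ),
      n₀ ≤ n → δ n ≤ d → δ n ≤ h → IsBihomogeneous F d 1 → H.IsHomogeneous h →
      IsSmoothCI F H → BiLangEquivalence F H σ) ↔
    ∀ (K : Type) [Field K] [NumberField K] (n : ℕ)
      (S : Set (MvPolynomial (Fin (n + 1)) K)) (σ : K →+* ℂ),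
      (∀ G ∈ S, ∃ d, G.IsHomogeneous d) → LangEquivalence S σ :=
  lang_reduction n₀ δ

end Pool.Agent.Results.MP_f82ddf_nt.CompleteIntersections
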