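import Pool.Agent.Work.MP_f82ddf_nt.DQ.Final

/-!
# Hyperbolic implies finitely many points: equivalence of the general case with the special case
of smooth complete intersections of diagonal quadrics
-/

open MvPolynomial
open Pool.Agent.Work.MP_f82ddf_nt

namespace Pool.Agent.Results.MP_f82ddf_nt.DiagonalQuadrics

/-- Let `k` be a number field with an embedding `ρ` in the field of complex numbers and let `δ` be
any function from `ℕ` to `ℕ`. The following are equivalent:
* `X(k)` is finite for all smooth complete intersections `X : ∑ j, a i j * y j ^ 2 = 0` (`i < r`)
  of `r` diagonal quadrics over `k` in `N`-space such that `N + 1 < 2 * r`, `δ (N - r) ≤ r` and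
  `X_ρ` is Kobayashi hyperbolic;
* `X(L)` is finite for all finite extensions `K` of `k`, all projective varieties `X` over `K`
  (singular ones included) such that `X_σ` is Kobayashi hyperbolic for all embeddings `σ` of `K`
  extending `ρ`, and all finite extensions `L` of `K`. -/
theorem result (k : Type) [Field k] [NumberField k] (ρ : k →+* ℂ) (δ : ℕ → ℕ) :
    (∀ (N r : ℕ) (a : Matrix (Fin r) (Fin (N + 1)) k), N + 1 < 2 * r → δ (N - r) ≤ r →
        SmoothDiagonal a → KobayashiHyperbolic (complexPoints (diagonal a) ρ) →
          (points (diagonal a) k).Finite) ↔
      ∀ (K : Type) [Field K] [Algebra k K] [FiniteDimensional k K] (n : ℕ)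
        (S : Set (MvPolynomial (Fin (n + 1)) K)), (∀ G ∈ S, ∃ e, G.IsHomogeneous e) →
        (∀ σ : K →+* ℂ, σ.comp (algebraMap k K) = ρ →
          KobayashiHyperbolic (complexPoints S σ)) →
        ∀ (L : Type) [Field L] [Algebra K L] [FiniteDimensional K L], (points S L).Finite :=
  DQ.diagonal_reduction k ρ δ

end Pool.Agent.Results.MP_f82ddf_nt.DiagonalQuadrics

/-
The claim file of this hand-in (retired on 4 December: its place is taken by KummerCovers and
GenericDiagonal; four hand-ins per problem):

Proves: Let k be a number field, ρ: k -> C, δ: N -> N. Then X(k) is finite for all smooth complete intersections X: Σ_j a_ij y_j^2 = 0, i < r, of diagonal quadrics over k in P^N, N+1 < 2r, δ(N-r) <= r, with X_ρ Kobayashi hyperbolic, if and only if X(L) is finite for all finite K/k, all projective varieties X over K (singular ones included) with X_σ Kobayashi hyperbolic for all σ: K -> C extending ρ, and all finite L/K.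
Definitions: PSpace: projective space. points S L, complexPoints S σ: X(L), X_σ for X: S = 0. diagonal a: the forms Σ_j a_ij y_j^2. SmoothDiagonal a: their gradients are linearly independent at every point of X over the algebraic closure. HolomorphicOn: locally given by holomorphic homogeneous coordinates without common zero. poincareDist, DiscChain, kobayashiDist, KobayashiHyperbolic: Poincaré distance on the unit disc, chains of holomorphic discs in X, infimum of their lengths, its positivity for distinct points.
Relation: Partial answer to Q1: an unconditional reduction of its half 'hyperbolic implies finitely many points'; no single X is settled. K = k, all k: this half, even for singular X, is equivalent to its case of k-points of these X; they have ample canonical bundle O(2r-N-1) and, by choice of δ, codimension r as large as one likes against their dimension N-r. For k = Q only rational points of intersections of rational diagonal quadrics matter. Related: none known to us for the reduction; Vojta (1999, Büchi's problem) treats special X.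
-/
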