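import Pool.Agent.Work.MP_f82ddf_W.All2

/-!
# One exceptional set for all the varieties with a finite morphism to projective space which is
ramified with multiplicities at least `k` over many hyperplanes, and half of Lang's equivalence
-/

open MvPolynomial
open Pool.Agent.Work.MP_f82ddf_nt

namespace Pool.Agent.Results.MP_f82ddf_nt.ExceptionalSet

/-- `v` is a point, with coordinates in the algebraic closure of `K`, of the affine cone over the
projective variety `X` given by `S`. -/
def OnX {K : Type} [Field K] {m : ℕ} (S : Set (MvPolynomial (Fin (m + 1)) K))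
    (v : Fin (m + 1) → AlgebraicClosure K) : Prop :=
  ∀ F ∈ S, aeval v F = 0

/-- A morphism, defined over the algebraic closure of `K`, from the projective variety `X` given by
`S` to the projective space of dimension `n`: a set of tuples of forms, the forms of a tuple having
the same degree, such that any two tuples are proportional at every point of `X` and at every point
of `X` one of the tuples is not zero. -/
structure Mor (K : Type) [Field K] (m n : ℕ) (S : Set (MvPolynomial (Fin (m + 1)) K)) where
  tuples : Set (Fin (n + 1) → MvPolynomial (Fin (m + 1)) (AlgebraicClosure K))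
  homogeneous : ∀ s ∈ tuples, ∃ e, ∀ c, (s c).IsHomogeneous e
  compatible : ∀ s ∈ tuples, ∀ t ∈ tuples, ∀ v : Fin (m + 1) → AlgebraicClosure K, OnX S v →
    ∀ c d, eval v (s c) * eval v (t d) = eval v (s d) * eval v (t c)
  defined : ∀ v : Fin (m + 1) → AlgebraicClosure K, v ≠ 0 → OnX S v →
    ∃ s ∈ tuples, ∃ c, eval v (s c) ≠ 0

section

variable {K : Type} [Field K] {m n : ℕ} {S : Set (MvPolynomial (Fin (m + 1)) K)}

/-- The morphism `g` has finite fibres (so it is a finite morphism, `X` being projective): for every
point `w` of the projective space there are only finitely many points of `X` mapped to `w`. -/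
def Mor.Finite (g : Mor K m n S) : Prop :=
  ∀ w : Fin (n + 1) → AlgebraicClosure K, w ≠ 0 →
    {P : PSpace (AlgebraicClosure K) m | OnX S P.rep ∧ ∀ s ∈ g.tuples, ∀ c d,
      eval P.rep (s c) * w d = eval P.rep (s d) * w c}.Finite

/-- The pull back under `g` of the hyperplane `∑ c, l c * y c = 0` has only multiplicities at least
`k`: near every point `v` of `X` it is, up to a unit, a product of powers with exponents at least
`k`.  For some tuple `s` of `g`, not zero at `v`, and forms `a`, `b i`, with `a` not zero at `v`, the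
equation `a * ∑ c, l c * s c = ∏ i, b i ^ μ i`, `k ≤ μ i`, holds on `X`.  If `X` is smooth, this
means that all the components of the divisor `g ^ *` of the hyperplane have multiplicity at least
`k`. -/
def Mor.MultGE (g : Mor K m n S) (k : ℕ) (l : Fin (n + 1) → AlgebraicClosure K) : Prop :=
  ∀ v : Fin (m + 1) → AlgebraicClosure K, v ≠ 0 → OnX S v →
    ∃ s ∈ g.tuples, (∃ c, eval v (s c) ≠ 0) ∧
      ∃ (d t : ℕ) (a : MvPolynomial (Fin (m + 1)) (AlgebraicClosure K))
        (b : Fin t → MvPolynomial (Fin (m + 1)) (AlgebraicClosure K))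
        (e μ : Fin t → ℕ), a.IsHomogeneous d ∧ (∀ i, (b i).IsHomogeneous (e i)) ∧
        (∀ i, k ≤ μ i) ∧ eval v a ≠ 0 ∧
        ∀ u, OnX S u → eval u a * ∑ c, l c * eval u (s c) = ∏ i, eval u (b i) ^ μ i

/-- The complex points `P` of `X_τ` such that the coordinates `y` of `g(P)` satisfy all the equations
`D s (y (s 0), .., y (s (d + 1))) = 0`, one for each choice `s` of `d + 2` of the coordinates: the
inverse image under `g` of a closed subset of dimension at most `d`. -/
def Mor.Exc (g : Mor K m n S) {d : ℕ}
    (D : (Fin (d + 2) ↪ Fin (n + 1)) → MvPolynomial (Fin (d + 2)) (AlgebraicClosure K))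
    (τ : AlgebraicClosure K →+* ℂ) : Set (PSpace ℂ m) :=
  {P | P ∈ complexPoints S (τ.comp (algebraMap K (AlgebraicClosure K))) ∧
    ∀ y ∈ g.tuples, ∀ s, eval₂ τ (fun i => eval₂ τ P.rep (y (s i))) (D s) = 0}

end

/-- The Zariski closure of the image of `f` in projective space has dimension at most `d`: any
`d + 2` of the homogeneous coordinates satisfy on the image a nontrivial homogeneous relation. -/
def ImageDimLE {m : ℕ} (f : ℂ → PSpace ℂ m) (d : ℕ) : Prop :=
  ∀ s : Fin (d + 2) → Fin (m + 1), ∃ (e : ℕ) (P : MvPolynomial (Fin (d + 2)) ℂ),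
    P ≠ 0 ∧ P.IsHomogeneous e ∧ ∀ z, eval (fun i => (f z).rep (s i)) P = 0

/-- `(s, w)` is a point of the plane cubic `w ^ 2 = s ^ 3 + a * s + b`. -/
def OnCubic {k : Type*} [Field k] (a b s w : k) : Prop := w ^ 2 = s ^ 3 + a * s + b

/-- The value at `(s, w)` of the vector of functions `p i (s) + q i (s) * w`. -/
noncomputable def cubicVal {k : Type*} [Field k] {m : ℕ} (p q : Fin (m + 1) → Polynomial k)
    (s w : k) : Fin (m + 1) → k := fun i => (p i).eval s + (q i).eval s * w

/-- The projective variety given by `S` contains, over the algebraic closure of `K`, the image of a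
plane cubic `w ^ 2 = s ^ 3 + a * s + b` (possibly singular) under a nonconstant map
`(s, w) ↦ [p 0 (s) + q 0 (s) * w : ⋯ : p m (s) + q m (s) * w]`.  Every curve of geometric genus 0
or 1 in it over the algebraic closure is such an image. -/
def CubicImage {K : Type*} [Field K] {m : ℕ} (S : Set (MvPolynomial (Fin (m + 1)) K)) : Prop :=
  ∃ (a b : AlgebraicClosure K) (p q : Fin (m + 1) → Polynomial (AlgebraicClosure K)),
    (∀ F ∈ S, ∀ s w, OnCubic a b s w → aeval (cubicVal p q s w) F = 0) ∧
    ∃ (i j : Fin (m + 1)) (s w s' w' : AlgebraicClosure K), OnCubic a b s w ∧ OnCubic a b s' w' ∧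
      cubicVal p q s w i * cubicVal p q s' w' j ≠ cubicVal p q s w j * cubicVal p q s' w' i

/-- FIRST PART.  For all `n ≥ 1` and `c` there is a number `N₀` with the following property.  Let `K`
be a number field, `l 0, .., l N` hyperplanes, `N ≥ N₀`, in the projective space of dimension `n` over
the algebraic closure of `K`, of which at most `c` pass through any point, `2 ≤ k ≤ n + 1` and
`d = n + 1 - k`.  There are nonzero forms `D s` in `d + 2` variables over the algebraic closure of
`K`, one for each choice `s` of `d + 2` of the `n + 1` coordinates (they define a closed subset `Z` of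
the projective space, of dimension at most `d`), such that for EVERY projective variety `X` over `K`
(given by the forms in `S`, singular or reducible ones included) with a finite morphism `g` to the
projective space for which the pull backs of all the hyperplanes `l j` have only multiplicities at
least `k`:
* for every embedding `τ` of the algebraic closure in the field of complex numbers every nonconstant
  entire curve in `X_τ` is contained in `g⁻¹(Z)`, its Zariski closure has dimension at most `d`, and
  `X_τ` is Kobayashi hyperbolic if and only if its closed subset `g⁻¹(Z)` is;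
* if `k = n + 1`, then `X_σ` is Kobayashi hyperbolic for every embedding `σ` of `K`;
* if `k ≥ n`, then for every `σ` the variety `X_σ` is Kobayashi hyperbolic if and only if `X`
  contains no nonconstant image of a plane cubic over the algebraic closure of `K`; and if `X(L)` is
  finite for every finite extension `L` of `K`, then `X_σ` is Kobayashi hyperbolic for every `σ`.

SECOND PART: the dimension `n + 1 - k` of `Z` is the least possible.  For `2 ≤ k ≤ n` and any number
`N + 1 > n` of hyperplanes there are hyperplanes `l 0, .., l N`, at most `n` of them through any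
point, a projective variety `X` over the field of rational numbers and a finite morphism `g` as in
the first part such that no closed set given by nonzero forms `D s` in `(n - k) + 2` variables, one for
each choice `s` of `(n - k) + 2` coordinates, contains the images of all the nonconstant entire
curves in `X_τ`. -/
theorem result (n : ℕ) (hn : 1 ≤ n) :
    (∀ c : ℕ, ∃ N₀ : ℕ, ∀ N : ℕ, N₀ ≤ N →
      ∀ (K : Type) [Field K] [NumberField K] (l : Fin (N + 1) → Fin (n + 1) → AlgebraicClosure K),
        (∀ v : Fin (n + 1) → AlgebraicClosure K, v ≠ 0 → {j | ∑ i, l j i * v i = 0}.ncard ≤ c) →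
        ∀ k d : ℕ, 2 ≤ k → k + d = n + 1 →
        ∃ D : (Fin (d + 2) ↪ Fin (n + 1)) → MvPolynomial (Fin (d + 2)) (AlgebraicClosure K),
          (∀ s, D s ≠ 0 ∧ ∃ e, (D s).IsHomogeneous e) ∧
          ∀ (m : ℕ) (S : Set (MvPolynomial (Fin (m + 1)) K)),
            (∀ F ∈ S, ∃ e, F.IsHomogeneous e) →
            ∀ g : Mor K m n S, g.Finite → (∀ j, g.MultGE k (l j)) →
              (∀ τ : AlgebraicClosure K →+* ℂ,
                (∀ f : ℂ → PSpace ℂ m, HolomorphicOn f Set.univ →
                  (∀ z, f z ∈ complexPoints S (τ.comp (algebraMap K (AlgebraicClosure K)))) →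
                  (∃ a b, f a ≠ f b) → (∀ z, f z ∈ g.Exc D τ) ∧ ImageDimLE f d) ∧
                (KobayashiHyperbolic
                    (complexPoints S (τ.comp (algebraMap K (AlgebraicClosure K)))) ↔
                  KobayashiHyperbolic (g.Exc D τ))) ∧
              (d = 0 → ∀ σ : K →+* ℂ, KobayashiHyperbolic (complexPoints S σ)) ∧
              (d ≤ 1 → (∀ σ : K →+* ℂ, KobayashiHyperbolic (complexPoints S σ) ↔ ¬ CubicImage S) ∧
                ((∀ (L : Type) [Field L] [Algebra K L] [FiniteDimensional K L],
                    (points S L).Finite) →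
                  ∀ σ : K →+* ℂ, KobayashiHyperbolic (complexPoints S σ)))) ∧
    (∀ k d N : ℕ, 2 ≤ k → k + d = n → n ≤ N →
      ∃ (S : Set (MvPolynomial (Fin (N + 1)) ℚ)) (g : Mor ℚ N n S)
        (l : Fin (N + 1) → Fin (n + 1) → AlgebraicClosure ℚ),
        (∀ F ∈ S, ∃ e, F.IsHomogeneous e) ∧
        (∀ v : Fin (n + 1) → AlgebraicClosure ℚ, v ≠ 0 → {j | ∑ i, l j i * v i = 0}.ncard ≤ n) ∧
        g.Finite ∧ (∀ j, g.MultGE k (l j)) ∧
        ∀ D : (Fin (d + 2) ↪ Fin (n + 1)) → MvPolynomial (Fin (d + 2)) (AlgebraicClosure ℚ),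
          (∀ s, D s ≠ 0 ∧ ∃ e, (D s).IsHomogeneous e) → ∀ τ : AlgebraicClosure ℚ →+* ℂ,
            ∃ f : ℂ → PSpace ℂ N, HolomorphicOn f Set.univ ∧
              (∀ z, f z ∈ complexPoints S (τ.comp (algebraMap ℚ (AlgebraicClosure ℚ)))) ∧
              (∃ a b, f a ≠ f b) ∧ ∃ z, f z ∉ g.Exc D τ) := by
  refine ⟨fun c => ?_, fun k d N hk hkd hN => ?_⟩
  · obtain ⟨N₁, h1⟩ := Pool.MPW.all_W1 n c hn
    obtain ⟨N₂, h2⟩ := Pool.MPW.all_W2 n c hn
    refine ⟨max N₁ N₂, fun N hN K _ _ l hl k d hk hkd => ?_⟩
    obtain ⟨D, hD, hD'⟩ := h1 N (le_trans (le_max_left _ _) hN) K l hl (d + 1) (k - 2) (by omega)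
      (by omega)
    refine ⟨D, hD, fun m S hS g hg hm => ?_⟩
    have hk2 : k - 2 + 2 = k := by omega
    let g' : Pool.ThmP.Mor K (AlgebraicClosure K) m n S :=
      ⟨g.tuples, g.homogeneous, g.compatible, g.defined⟩
    have hg' : g'.Finite := hg
    have hm' : ∀ j, Pool.MPV.Full g' (k - 2 + 2) (l j) := by
      rw [hk2]
      exact hm
    have hA := hD' m S hS g' hg' hm'
    have hB := h2 N (le_trans (le_max_right _ _) hN) K l hl (d + 1) (k - 2) (by omega)
      (by omega) m S hS g' hg' hm'
    refine ⟨fun τ => ⟨fun f hf hfX hne => ⟨(hA τ).1 f hf hfX hne, ?_⟩, (hA τ).2⟩, fun hd => ?_,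
      fun hd => ?_⟩
    · exact hB.1 (τ.comp (algebraMap K (AlgebraicClosure K))) f hf hfX
    · exact hB.2.1 (by omega)
    · obtain ⟨h3, h4⟩ := hB.2.2 (by omega)
      refine ⟨h3, fun hL σ => (h3 σ).2 fun hC => ?_⟩
      obtain ⟨L, i1, i2, i3, hinf⟩ := h4 hC
      exact hinf (hL L)
  · obtain ⟨S, g, l, hS, hl, hg, hm, hD⟩ := Pool.MPW.all_WS n k d N hk hkd hN
    exact ⟨S, ⟨g.tuples, g.homogeneous, g.compatible, g.defined⟩, l, hS, hl, hg, hm, hD⟩

end Pool.Agent.Results.MP_f82ddf_nt.ExceptionalSet
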