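import Pool.Agent.Work.MP_f82ddf_M0.AllM
import Pool.Agent.Work.MP_f82ddf_M0.B_NUS
import Pool.Agent.Work.MP_f82ddf_M0.B_FMN
import Pool.Agent.Work.MP_f82ddf_M0.B_CST
import Pool.Agent.Work.MP_f82ddf_M0.B_GEX
import Pool.Agent.Work.MP_f82ddf_gen.All

/-!
# Generic complete intersections of diagonal forms of degree `k ≥ 2` and large codimension, and all
projective varieties with a finite morphism to one of them, are Kobayashi hyperbolic
-/

open MvPolynomial
open Pool.Agent.Work.MP_f82ddf_nt

namespace Pool.Agent.Work.MP_f82ddf_nt.Withdrawn.GenericDiagonal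

/-- The diagonal forms `∑ j, a i j * y j ^ k`, one for each row of the matrix `a`. -/
def diag {K : Type*} [Field K] {r N : ℕ} (k : ℕ) (a : Matrix (Fin r) (Fin (N + 1)) K) :
    Set (MvPolynomial (Fin (N + 1)) K) :=
  Set.range fun i => ∑ j, C (a i j) * X j ^ k

/-- The intersection of the hypersurfaces `∑ j, a i j * y j ^ k = 0`, one for each row of the
matrix `a`, is a smooth complete intersection (Jacobian criterion): at every nonzero geometric
point the gradients of the forms are linearly independent. -/
def SmoothDiag {K : Type*} [Field K] {r N : ℕ} (k : ℕ) (a : Matrix (Fin r) (Fin (N + 1)) K) :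
    Prop :=
  ∀ v : Fin (N + 1) → AlgebraicClosure K, v ≠ 0 →
    (∀ i, ∑ j, algebraMap K (AlgebraicClosure K) (a i j) * v j ^ k = 0) →
    LinearIndependent (AlgebraicClosure K)
      (fun (i : Fin r) (j : Fin (N + 1)) =>
        (k : AlgebraicClosure K) * algebraMap K (AlgebraicClosure K) (a i j) * v j ^ (k - 1))

/-- The forms `h j`, all of the same degree `e ≥ 1`, have no common zero on the projective variety
`X` given by `S` and map it to the complete intersection of the diagonal forms
`∑ j, a i j * y j ^ k`: they define a finite morphism from `X` to this complete intersection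
(conditions on the points over the algebraic closure). -/
def FiniteTo {K : Type*} [Field K] {r N m : ℕ} (k : ℕ) (a : Matrix (Fin r) (Fin (N + 1)) K)
    (S : Set (MvPolynomial (Fin (m + 1)) K)) (e : ℕ)
    (h : Fin (N + 1) → MvPolynomial (Fin (m + 1)) K) : Prop :=
  1 ≤ e ∧ (∀ j, (h j).IsHomogeneous e) ∧
    ∀ v : Fin (m + 1) → AlgebraicClosure K, (∀ F ∈ S, aeval v F = 0) →
      (∀ i, ∑ j, algebraMap K (AlgebraicClosure K) (a i j) * aeval v (h j) ^ k = 0) ∧
      ((∀ j, aeval v (h j) = 0) → v = 0)

/-- All projective varieties `X` over `K` (given by the forms in `S`, singular or reducible ones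
included) with a finite morphism to the intersection of the diagonal forms
`∑ j, a i j * y j ^ k` given by forms `h j` are Kobayashi hyperbolic for every embedding of `K` in
the field of complex numbers. -/
def CoversHyperbolic {K : Type*} [Field K] {r N : ℕ} (k : ℕ)
    (a : Matrix (Fin r) (Fin (N + 1)) K) : Prop :=
  ∀ (m e : ℕ) (S : Set (MvPolynomial (Fin (m + 1)) K))
    (h : Fin (N + 1) → MvPolynomial (Fin (m + 1)) K), (∀ F ∈ S, ∃ d, F.IsHomogeneous d) →
    FiniteTo k a S e h → ∀ σ : K →+* ℂ, KobayashiHyperbolic (complexPoints S σ)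

/-- The columns of the matrix `l` form a basis of the space of solutions `u` of
`∑ j, a i j * u j = 0` (its dimension is `n + 1`); the `l j` are the coordinate functions `u j` on
this space, in this basis. -/
def IsParam {K : Type*} [Field K] {r n : ℕ} (a : Matrix (Fin r) (Fin (n + r + 1)) K)
    (l : Fin (n + r + 1) → Fin (n + 1) → K) : Prop :=
  (∀ i c, ∑ j, a i j * l j c = 0) ∧ LinearIndependent K (fun (c : Fin (n + 1)) j => l j c)

/-- No nonzero form of degree at most `D` vanishes at all the points `l j`. -/
def NoHypersurface {K : Type*} [Field K] {N n : ℕ} (D : ℕ) (l : Fin N → Fin (n + 1) → K) : Prop :=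
  ∀ (e : ℕ) (G : MvPolynomial (Fin (n + 1)) K), e ≤ D → G.IsHomogeneous e → G ≠ 0 →
    ∃ j, eval (l j) G ≠ 0

open Pool.ThmM0 in
/-- For each `n` there are `D` and `r₀` with the following properties.
* Let `Y : ∑ j, a i j * y j ^ k = 0` (`i < r`) be a smooth complete intersection of diagonal forms
  of degree `k ≥ 2`, of dimension `n`, over a field `K` of characteristic `0`, such that the
  coordinate functions `u j` on the `n + 1`-dimensional space of solutions of `∑ j, a i j * u j = 0`
  do not lie on a common hypersurface of degree at most `D` in its dual space. Then `Y_σ`, and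
  `X_σ` for all projective varieties `X` over `K` with a finite morphism to `Y`, are Kobayashi
  hyperbolic for every embedding `σ` of `K` in the field of complex numbers.
* If `r ≥ r₀` then there is a nonzero polynomial `P` with integer coefficients in the entries of `a`,
  which does not depend on `k`, such that this holds whenever `P(a) ≠ 0`, for all `k ≥ 2` at once:
  `Y` is a smooth complete intersection, and `Y_σ` and all these `X_σ` are Kobayashi hyperbolic. -/
theorem result (n : ℕ) : ∃ D r₀ : ℕ,
    (∀ (r k : ℕ), 2 ≤ k → ∀ (K : Type) [Field K] [CharZero K]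
      (a : Matrix (Fin r) (Fin (n + r + 1)) K), SmoothDiag k a →
      (∃ l : Fin (n + r + 1) → Fin (n + 1) → K, IsParam a l ∧ NoHypersurface D l) →
      CoversHyperbolic k a) ∧
    ∀ r : ℕ, r₀ ≤ r → ∃ P : MvPolynomial (Fin r × Fin (n + r + 1)) ℤ, P ≠ 0 ∧
      ∀ (K : Type) [Field K] [CharZero K] (a : Matrix (Fin r) (Fin (n + r + 1)) K),
        aeval (fun q : Fin r × Fin (n + r + 1) => a q.1 q.2) P ≠ 0 → ∀ k : ℕ, 2 ≤ k →
          SmoothDiag k a ∧ CoversHyperbolic k a := by
  obtain ⟨D, hD⟩ := stmt_GEX all_GEN stmt_NUS stmt_FMN stmt_CST n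
  obtain ⟨r₀, hr⟩ := Pool.ThmMG.all_GNR n D
  refine ⟨D, r₀, ?_, ?_⟩
  · rintro r k hk K _ _ a ha ⟨l, hl1, hl2⟩ m e S h hS hF σ
    exact hD r k hk K a ha l hl1 hl2 m e S h hS hF σ
  · intro r h
    obtain ⟨P, hP, hP2⟩ := hr r h
    refine ⟨P, hP, fun K _ _ a ha k hk => ?_⟩
    obtain ⟨h1, l, h2, h3⟩ := hP2 K a ha
    exact ⟨h1 k hk, fun m e S g hS hF σ => hD r k hk K a (h1 k hk) l h2 h3 m e S g hS hF σ⟩

end Pool.Agent.Work.MP_f82ddf_nt.Withdrawn.GenericDiagonal
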