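import Pool.Agent.Work.MP_f82ddf_nt.Spaced

/-!
# Half of Lang's equivalence for varieties given by forms with few monomials and high powers
-/

open Pool.Agent.Work.MP_f82ddf_nt

namespace Pool.Agent.Results.MP_f82ddf_nt.HighPowers

/-- Let `X` in projective `n`-space over a number field `K` be given by forms such that, in some
linear coordinates `g` over the algebraic closure of `K`, for each of the forms some integer
`k > N (N - 2)`, where `N` is its number of monomials, divides all the differences between the
exponents of its monomials.  Either `X` contains a monomial curve in the coordinates `g`, and then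
for all `σ` both sides of Lang's equivalence fail; or it does not, and then `X_σ` is Kobayashi
hyperbolic for all `σ`.  Hence if `X(L)` is finite for all finite extensions `L` of `K`, then
`X_σ` is Kobayashi hyperbolic.  For example, `X` can be the preimage of any projective variety,
given by forms with at most `N` monomials, under the `k`-th power map, for any `k > N (N - 2)`. -/
theorem result (K : Type) [Field K] [NumberField K] (n : ℕ)
    (S : Set (MvPolynomial (Fin (n + 1)) K))
    (g : Matrix.GeneralLinearGroup (Fin (n + 1)) (AlgebraicClosure K))
    (hS : ∀ F ∈ S, (∃ d, F.IsHomogeneous d) ∧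
      ∃ k, (subst g F).support.card * ((subst g F).support.card - 2) < k ∧
        Spaced k (subst g F)) :
    (HasMonomialCurve g S ∧ ∀ σ : K →+* ℂ, ¬ KobayashiHyperbolic (complexPoints S σ) ∧
      ∃ (L : Type) (_ : Field L) (_ : Algebra K L) (_ : FiniteDimensional K L),
        (points S L).Infinite) ∨
    (¬ HasMonomialCurve g S ∧ ∀ σ : K →+* ℂ, KobayashiHyperbolic (complexPoints S σ)) :=
  spaced_dichotomy g hS

end Pool.Agent.Results.MP_f82ddf_nt.HighPowers
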