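import Pool.Agent.Work.MP_f82ddf_nt.HF.Final

/-!
# Hyperbolic implies finitely many points: equivalence of the general case with the special case
of smooth hypersurfaces
-/

open MvPolynomial
open Pool.Agent.Work.MP_f82ddf_nt

namespace Pool.Agent.Results.MP_f82ddf_nt.HyperbolicHypersurfaces

/-- Let `k` be a number field with an embedding `ρ` in the field of complex numbers. For all `N₀`
and `D₀` the following are equivalent:
* `Y(k)` is finite for all smooth hypersurfaces `Y` over `k` in the projective spaces of
  dimension `n ≥ N₀`, of degree at least `D₀(n)`, such that `Y_ρ` is Kobayashi hyperbolic;
* `X(L)` is finite for all finite extensions `K` of `k`, all projective varieties `X` over `K`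
  (singular ones included) such that `X_σ` is Kobayashi hyperbolic for all embeddings `σ` of `K`
  extending `ρ`, and all finite extensions `L` of `K`. -/
theorem result (k : Type) [Field k] [NumberField k] (ρ : k →+* ℂ) (N₀ : ℕ) (D₀ : ℕ → ℕ) :
    (∀ (n d : ℕ) (F : MvPolynomial (Fin (n + 1)) k), N₀ ≤ n → D₀ n ≤ d → F.IsHomogeneous d →
        Nonsingular F → KobayashiHyperbolic (complexPoints {F} ρ) → (points {F} k).Finite) ↔
      ∀ (K : Type) [Field K] [Algebra k K] [FiniteDimensional k K] (n : ℕ)
        (S : Set (MvPolynomial (Fin (n + 1)) K)), (∀ G ∈ S, ∃ e, G.IsHomogeneous e) →
        (∀ σ : K →+* ℂ, σ.comp (algebraMap k K) = ρ →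
          KobayashiHyperbolic (complexPoints S σ)) →
        ∀ (L : Type) [Field L] [Algebra K L] [FiniteDimensional K L], (points S L).Finite :=
  hyperbolic_finite_reduction k ρ N₀ D₀

end Pool.Agent.Results.MP_f82ddf_nt.HyperbolicHypersurfaces

/-
The claim file of this hand-in (retired on 4 December: its place is taken by KummerCovers and
GenericDiagonal; four hand-ins per problem):

Proves: Let k be a number field, ρ: k -> C, N_0 in N, D_0: N -> N. Then Y(k) is finite for all smooth hypersurfaces Y over k in P^n, n >= N_0, of degree >= D_0(n), with Y_ρ Kobayashi hyperbolic, if and only if X(L) is finite for all finite K/k, all projective varieties X over K (singular ones included) with X_σ Kobayashi hyperbolic for all σ: K -> C extending ρ, and all finite L/K.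
Definitions: PSpace: projective space. points S L, complexPoints S σ: X(L), X_σ for X: S = 0. Nonsingular F: F = 0 is smooth (Jacobian criterion over the algebraic closure). HolomorphicOn: locally given by holomorphic homogeneous coordinates without common zero. poincareDist, DiscChain, kobayashiDist, KobayashiHyperbolic: Poincaré distance on the unit disc, chains of holomorphic discs in X, infimum of their lengths, its positivity for distinct points.
Relation: Partial answer to Q1: an unconditional reduction of its half 'hyperbolic implies finitely many points'; no single X is settled. K = k, all k: this half, even for singular X, is equivalent to its case of k-points of smooth hypersurfaces over k of arbitrarily large dimension and degree. k = Q: finiteness of the rational points of smooth hyperbolic hypersurfaces over Q would give, over all number fields, this half for all X with X_σ hyperbolic for all σ (e.g. Mordell's conjecture). Related: none known to us for the reduction; the proof uses methods of Cartan, Green and Brody and restriction of scalars.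
-/
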