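import Pool.Agent.Work.MP_f82ddf_M0.AllM
import Pool.Agent.Work.MP_f82ddf_M0.B_NUS
import Pool.Agent.Work.MP_f82ddf_M0.B_FMN
import Pool.Agent.Work.MP_f82ddf_M0.B_DHO
import Pool.Agent.Work.MP_f82ddf_M0.B_TRF
import Pool.Agent.Work.MP_f82ddf_M0.B_DMX
import Pool.Agent.Work.MP_f82ddf_M0.B_IMG
import Pool.Agent.Work.MP_f82ddf_M0.B_PAI
import Pool.Agent.Work.MP_f82ddf_cl.All

/-!
# Entire curves in varieties with a finite morphism to a complete intersection of diagonal forms,
and half of Lang's equivalence for them
-/

open MvPolynomial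
open Pool.Agent.Work.MP_f82ddf_nt

namespace Pool.Agent.Work.MP_f82ddf_nt.Withdrawn.KummerCovers

/-- The diagonal forms `∑ j, a i j * y j ^ k`, one for each row of the matrix `a`. -/
def diag {K : Type*} [Field K] {r N : ℕ} (k : ℕ) (a : Matrix (Fin r) (Fin (N + 1)) K) :
    Set (MvPolynomial (Fin (N + 1)) K) :=
  Set.range fun i => ∑ j, C (a i j) * X j ^ k

/-- The intersection of the hypersurfaces `∑ j, a i j * y j ^ k = 0`, one for each row of the
matrix `a`, is a smooth complete intersection (Jacobian criterion): at every nonzero geometric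
point the gradients of the forms are linearly independent. -/
def SmoothDiag {K : Type*} [Field K] {r N : ℕ} (k : ℕ) (a : Matrix (Fin r) (Fin (N + 1)) K) :
    Prop :=
  ∀ v : Fin (N + 1) → AlgebraicClosure K, v ≠ 0 →
    (∀ i, ∑ j, algebraMap K (AlgebraicClosure K) (a i j) * v j ^ k = 0) →
    LinearIndependent (AlgebraicClosure K)
      (fun (i : Fin r) (j : Fin (N + 1)) =>
        (k : AlgebraicClosure K) * algebraMap K (AlgebraicClosure K) (a i j) * v j ^ (k - 1))

/-- The forms `h j`, all of the same degree `e ≥ 1`, have no common zero on the projective variety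
`X` given by `S` and map it to the complete intersection of the diagonal forms
`∑ j, a i j * y j ^ k`: they define a finite morphism from `X` to this complete intersection
(conditions on the points over the algebraic closure). -/
def FiniteTo {K : Type*} [Field K] {r N m : ℕ} (k : ℕ) (a : Matrix (Fin r) (Fin (N + 1)) K)
    (S : Set (MvPolynomial (Fin (m + 1)) K)) (e : ℕ)
    (h : Fin (N + 1) → MvPolynomial (Fin (m + 1)) K) : Prop :=
  1 ≤ e ∧ (∀ j, (h j).IsHomogeneous e) ∧
    ∀ v : Fin (m + 1) → AlgebraicClosure K, (∀ F ∈ S, aeval v F = 0) →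
      (∀ i, ∑ j, algebraMap K (AlgebraicClosure K) (a i j) * aeval v (h j) ^ k = 0) ∧
      ((∀ j, aeval v (h j) = 0) → v = 0)

/-- The Zariski closure of the image of `f` in projective space has dimension at most `d`: any
`d + 2` of the homogeneous coordinates satisfy on the image a nontrivial homogeneous relation. -/
def ImageDimLE {m : ℕ} (f : ℂ → PSpace ℂ m) (d : ℕ) : Prop :=
  ∀ s : Fin (d + 2) → Fin (m + 1), ∃ (e : ℕ) (P : MvPolynomial (Fin (d + 2)) ℂ),
    P ≠ 0 ∧ P.IsHomogeneous e ∧ ∀ z, eval (fun i => (f z).rep (s i)) P = 0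

/-- `(s, w)` is a point of the plane cubic `w ^ 2 = s ^ 3 + a * s + b`. -/
def OnCubic {k : Type*} [Field k] (a b s w : k) : Prop := w ^ 2 = s ^ 3 + a * s + b

/-- The value at `(s, w)` of the vector of functions `p i (s) + q i (s) * w`. -/
noncomputable def cubicVal {k : Type*} [Field k] {m : ℕ} (p q : Fin (m + 1) → Polynomial k)
    (s w : k) : Fin (m + 1) → k := fun i => (p i).eval s + (q i).eval s * w

/-- The projective variety given by `S` contains, over the algebraic closure of `K`, the image of a
plane cubic `w ^ 2 = s ^ 3 + a * s + b` (possibly singular) under a nonconstant map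
`(s, w) ↦ [p 0 (s) + q 0 (s) * w : ⋯ : p m (s) + q m (s) * w]`.  Every curve of geometric genus 0
or 1 in it over the algebraic closure is such an image. -/
def CubicImage {K : Type*} [Field K] {m : ℕ} (S : Set (MvPolynomial (Fin (m + 1)) K)) : Prop :=
  ∃ (a b : AlgebraicClosure K) (p q : Fin (m + 1) → Polynomial (AlgebraicClosure K)),
    (∀ F ∈ S, ∀ s w, OnCubic a b s w → aeval (cubicVal p q s w) F = 0) ∧
    ∃ (i j : Fin (m + 1)) (s w s' w' : AlgebraicClosure K), OnCubic a b s w ∧ OnCubic a b s' w' ∧
      cubicVal p q s w i * cubicVal p q s' w' j ≠ cubicVal p q s w j * cubicVal p q s' w' i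

open Pool.ThmM0 in
/-- For each `n` there is a number `N₀` with the following property. Let `r ≥ N₀` and `k ≥ 2`, let
`Y : ∑ j, a i j * y j ^ k = 0` (`i < r`) be a smooth complete intersection of diagonal forms, of
dimension `n`, over a field `K` of characteristic `0`, and let `X` (given by the forms in `S`,
singular or reducible ones included) be a projective variety over `K` with a finite morphism to `Y`
given by forms `h j`: for example a closed subvariety of `Y`, or the cover `y j ^ k = l j (x)`,
`x ∈ W`, of any projective variety `W` in `n`-space, for `n + r + 1` linear forms `l j` in general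
position. Then
* for every embedding `σ` of `K` in the field of complex numbers every entire curve in `X_σ` has a
  Zariski closure of dimension at most `n / k`;
* if `n < 2 * k` and `K` is a number field, then for every `σ` the variety `X_σ` is Kobayashi
  hyperbolic if and only if `X` contains no nonconstant image of a plane cubic
  `w ^ 2 = s ^ 3 + a * s + b` over the algebraic closure of `K`; so this does not depend on `σ`;
* if `n < 2 * k`, `K` is a number field and `X(L)` is finite for every finite extension `L` of `K`,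
  then `X_σ` is Kobayashi hyperbolic for every `σ`.

The bound `n / k` is attained for all `n`, `r` and `k ≥ 2`: some `Y` over the field of rational
numbers contains a linear subspace of dimension `n / k`. -/
theorem result (n : ℕ) : ∃ N₀ : ℕ,
    (∀ (r k : ℕ), N₀ ≤ r → 2 ≤ k → ∀ (K : Type) [Field K] [CharZero K]
      (a : Matrix (Fin r) (Fin (n + r + 1)) K), SmoothDiag k a →
      ∀ (m e : ℕ) (S : Set (MvPolynomial (Fin (m + 1)) K))
        (h : Fin (n + r + 1) → MvPolynomial (Fin (m + 1)) K), (∀ F ∈ S, ∃ d, F.IsHomogeneous d) →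
        FiniteTo k a S e h →
        (∀ (σ : K →+* ℂ) (f : ℂ → PSpace ℂ m), HolomorphicOn f Set.univ →
          (∀ z, f z ∈ complexPoints S σ) → ImageDimLE f (n / k)) ∧
        (n < 2 * k → NumberField K →
          (∀ σ : K →+* ℂ, KobayashiHyperbolic (complexPoints S σ) ↔ ¬ CubicImage S) ∧
          ((∀ (L : Type) [Field L] [Algebra K L] [FiniteDimensional K L], (points S L).Finite) →
            ∀ σ : K →+* ℂ, KobayashiHyperbolic (complexPoints S σ)))) ∧
    ∀ (r k : ℕ), 2 ≤ k → ∃ (a : Matrix (Fin r) (Fin (n + r + 1)) ℚ)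
      (l : Fin (n / k + 1) → Fin (n + r + 1) → ℚ), SmoothDiag k a ∧ LinearIndependent ℚ l ∧
        ∀ (σ : ℚ →+* ℂ) (p : PSpace ℂ (n + r)),
          (∃ c : Fin (n / k + 1) → ℂ, ∀ j, p.rep j = ∑ i, c i * σ (l i j)) →
            p ∈ complexPoints (diag k a) σ := by
  obtain ⟨N₀, hN⟩ := stmt_DMX all_ONE stmt_NUS stmt_FMN (stmt_TRF stmt_HOMR stmt_DHO) n
  refine ⟨N₀, fun r k hr hk K _ _ a ha m e S h hS hF => ⟨?_, ?_⟩, fun r k hk => ?_⟩
  · intro σ f hf hfX
    exact stmt_IMG stmt_MREL K m (n / k) S hS (hN r k hr hk K a ha m e S h hS hF) σ f hf hfX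
  · intro hnk hNF
    have := hNF
    have hM : n / k ≤ 1 := by
      have h1 : n / k < 2 := (Nat.div_lt_iff_lt_mul (by omega)).2 hnk
      omega
    have h6 := Pool.MCL.all_P6C K m S hS fun σ x i hi hx =>
      stmt_PAI stmt_DHO K m (n / k) S hM (hN r k hr hk K a ha m e S h hS hF) σ x i hi hx
    refine ⟨h6.1, fun hL σ => (h6.1 σ).2 fun hC => ?_⟩
    obtain ⟨L, i1, i2, i3, hinf⟩ := h6.2 hC
    exact hinf (hL L)
  · exact stmt_SHARP n r k hk

end Pool.Agent.Work.MP_f82ddf_nt.Withdrawn.KummerCovers
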