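import Pool.Agent.Work.MP_f82ddf_H.All2

/-!
# One exceptional hypersurface for all the varieties with a morphism to projective space which is
ramified with multiplicities at least 2 over many hypersurfaces of bounded degree, and half of Lang's
equivalence for surfaces
-/

open MvPolynomial
open Pool.Agent.Work.MP_f82ddf_nt

namespace Pool.Agent.Results.MP_f82ddf_nt.RamifiedHypersurfaces

/-- `v` is a point, with coordinates in the algebraic closure of `K`, of the affine cone over the
projective variety `X` given by `S`. -/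
def OnX {K : Type} [Field K] {m : ℕ} (S : Set (MvPolynomial (Fin (m + 1)) K))
    (v : Fin (m + 1) → AlgebraicClosure K) : Prop :=
  ∀ F ∈ S, aeval v F = 0

/-- A morphism, defined over the algebraic closure of `K`, from the projective variety `X` given by
`S` to the projective space of dimension `n`: a set of tuples of forms, the forms of a tuple having
the same degree, such that any two tuples are proportional at every point of `X` and at every point
of `X` one of the tuples is not zero. -/
structure Mor (K : Type) [Field K] (m n : ℕ) (S : Set (MvPolynomial (Fin (m + 1)) K)) where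
  tuples : Set (Fin (n + 1) → MvPolynomial (Fin (m + 1)) (AlgebraicClosure K))
  homogeneous : ∀ s ∈ tuples, ∃ e, ∀ c, (s c).IsHomogeneous e
  compatible : ∀ s ∈ tuples, ∀ t ∈ tuples, ∀ v : Fin (m + 1) → AlgebraicClosure K, OnX S v →
    ∀ c d, eval v (s c) * eval v (t d) = eval v (s d) * eval v (t c)
  defined : ∀ v : Fin (m + 1) → AlgebraicClosure K, v ≠ 0 → OnX S v →
    ∃ s ∈ tuples, ∃ c, eval v (s c) ≠ 0

section

variable {K : Type} [Field K] {m n : ℕ} {S : Set (MvPolynomial (Fin (m + 1)) K)}

/-- The morphism `g` has finite fibres (so it is a finite morphism, `X` being projective): for every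
point `w` of the projective space there are only finitely many points of `X` mapped to `w`. -/
def Mor.Finite (g : Mor K m n S) : Prop :=
  ∀ w : Fin (n + 1) → AlgebraicClosure K, w ≠ 0 →
    {P : PSpace (AlgebraicClosure K) m | OnX S P.rep ∧ ∀ s ∈ g.tuples, ∀ c d,
      eval P.rep (s c) * w d = eval P.rep (s d) * w c}.Finite

/-- The morphism `g` is onto. -/
def Mor.Onto (g : Mor K m n S) : Prop :=
  ∀ w : Fin (n + 1) → AlgebraicClosure K, w ≠ 0 →
    ∃ v : Fin (m + 1) → AlgebraicClosure K, v ≠ 0 ∧ OnX S v ∧ ∃ s ∈ g.tuples,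
      (∃ c, eval v (s c) ≠ 0) ∧ ∀ c d, eval v (s c) * w d = eval v (s d) * w c

/-- The pull back under `g` of the hypersurface `F = 0` has only multiplicities at least `k`: near
every point `v` of `X` it is, up to a unit, a product of powers with exponents at least `k`.  For
some tuple `s` of `g`, not zero at `v`, and forms `a`, `b i`, with `a` not zero at `v`, the equation
`a * F (s 0, .., s n) = ∏ i, b i ^ μ i`, `k ≤ μ i`, holds on `X`.  If `X` is smooth, this means that
all the components of the divisor `g ^ * (F = 0)` have multiplicity at least `k`. -/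
def Mor.MultGE (g : Mor K m n S) (k : ℕ) (F : MvPolynomial (Fin (n + 1)) (AlgebraicClosure K)) :
    Prop :=
  ∀ v : Fin (m + 1) → AlgebraicClosure K, v ≠ 0 → OnX S v →
    ∃ s ∈ g.tuples, (∃ c, eval v (s c) ≠ 0) ∧
      ∃ (d t : ℕ) (a : MvPolynomial (Fin (m + 1)) (AlgebraicClosure K))
        (b : Fin t → MvPolynomial (Fin (m + 1)) (AlgebraicClosure K))
        (e μ : Fin t → ℕ), a.IsHomogeneous d ∧ (∀ i, (b i).IsHomogeneous (e i)) ∧
        (∀ i, k ≤ μ i) ∧ eval v a ≠ 0 ∧
        ∀ u, OnX S u → eval u a * eval (fun c => eval u (s c)) F = ∏ i, eval u (b i) ^ μ i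

/-- The point `v` is mapped by `g` to the hypersurface `P = 0`. -/
def Mor.Meets (g : Mor K m n S) (P : MvPolynomial (Fin (n + 1)) (AlgebraicClosure K))
    (v : Fin (m + 1) → AlgebraicClosure K) : Prop :=
  ∀ s ∈ g.tuples, eval (fun c => eval v (s c)) P = 0

/-- `X` has dimension at most `d + 1`, and the inverse image under `g` of every hypersurface of the
projective space has dimension at most `d` (dimension at most `e`: any `e + 2` homogeneous
coordinates satisfy a homogeneous relation). -/
def Mor.Thin (g : Mor K m n S) (d : ℕ) : Prop :=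
  (∀ r : Fin (d + 3) → Fin (m + 1), ∃ (e : ℕ)
    (R : MvPolynomial (Fin (d + 3)) (AlgebraicClosure K)), R ≠ 0 ∧ R.IsHomogeneous e ∧
      ∀ v : Fin (m + 1) → AlgebraicClosure K, OnX S v → eval (fun i => v (r i)) R = 0) ∧
  ∀ (t : ℕ) (P : MvPolynomial (Fin (n + 1)) (AlgebraicClosure K)), P ≠ 0 → P.IsHomogeneous t →
    ∀ r : Fin (d + 2) → Fin (m + 1), ∃ (e : ℕ)
      (R : MvPolynomial (Fin (d + 2)) (AlgebraicClosure K)), R ≠ 0 ∧ R.IsHomogeneous e ∧
        ∀ v : Fin (m + 1) → AlgebraicClosure K, OnX S v → g.Meets P v →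
          eval (fun i => v (r i)) R = 0

/-- The set `Z_τ` of the complex points of `X_τ` which `g` maps to the hypersurface `D = 0`. -/
def Mor.Exc (g : Mor K m n S) (D : MvPolynomial (Fin (n + 1)) (AlgebraicClosure K))
    (τ : AlgebraicClosure K →+* ℂ) : Set (PSpace ℂ m) :=
  {P | P ∈ complexPoints S (τ.comp (algebraMap K (AlgebraicClosure K))) ∧
    ∀ y ∈ g.tuples, eval₂ τ (fun c => eval₂ τ P.rep (y c)) D = 0}

/-- The curve `f` in `X_τ` is contained in a fibre of `g`. -/
def Mor.InFibre (g : Mor K m n S) (τ : AlgebraicClosure K →+* ℂ) (f : ℂ → PSpace ℂ m) : Prop :=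
  ∃ w : Fin (n + 1) → ℂ, w ≠ 0 ∧ ∀ z, ∀ s ∈ g.tuples, ∀ c d,
    eval₂ τ (f z).rep (s c) * w d = eval₂ τ (f z).rep (s d) * w c

end

/-- The holomorphic map `f` meets the hypersurface `G = 0` only with multiplicities at least 2: for
all holomorphic homogeneous coordinates `φ` of `f` near `z₀`, not all zero at `z₀`, the function
`G(φ)` does not have a simple zero at `z₀`. -/
def Tangent {n : ℕ} (f : ℂ → PSpace ℂ n) (G : MvPolynomial (Fin (n + 1)) ℂ) : Prop :=
  ∀ (z₀ : ℂ) (φ : ℂ → Fin (n + 1) → ℂ), AnalyticAt ℂ φ z₀ → φ z₀ ≠ 0 →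
    (∀ᶠ z in nhds z₀, ∃ h : φ z ≠ 0, f z = Projectivization.mk ℂ (φ z) h) →
    analyticOrderAt (fun z => eval (φ z) G) z₀ ≠ 1

/-- `(s, w)` is a point of the plane cubic `w ^ 2 = s ^ 3 + a * s + b`. -/
def OnCubic {k : Type*} [Field k] (a b s w : k) : Prop := w ^ 2 = s ^ 3 + a * s + b

/-- The value at `(s, w)` of the vector of functions `p i (s) + q i (s) * w`. -/
noncomputable def cubicVal {k : Type*} [Field k] {m : ℕ} (p q : Fin (m + 1) → Polynomial k)
    (s w : k) : Fin (m + 1) → k := fun i => (p i).eval s + (q i).eval s * w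

/-- The projective variety given by `S` contains, over the algebraic closure of `K`, the image of a
plane cubic `w ^ 2 = s ^ 3 + a * s + b` (possibly singular) under a nonconstant map
`(s, w) ↦ [p 0 (s) + q 0 (s) * w : ⋯ : p m (s) + q m (s) * w]`.  Every curve of geometric genus 0
or 1 in it over the algebraic closure is such an image. -/
def CubicImage {K : Type*} [Field K] {m : ℕ} (S : Set (MvPolynomial (Fin (m + 1)) K)) : Prop :=
  ∃ (a b : AlgebraicClosure K) (p q : Fin (m + 1) → Polynomial (AlgebraicClosure K)),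
    (∀ F ∈ S, ∀ s w, OnCubic a b s w → aeval (cubicVal p q s w) F = 0) ∧
    ∃ (i j : Fin (m + 1)) (s w s' w' : AlgebraicClosure K), OnCubic a b s w ∧ OnCubic a b s' w' ∧
      cubicVal p q s w i * cubicVal p q s' w' j ≠ cubicVal p q s w j * cubicVal p q s' w' i

/-- For all `n ≥ 1`, `e₀` and `c` there is a number `N₀` with the following property.  Let `K` be a
number field and `F 0, .., F N`, `N ≥ N₀`, squarefree forms of degrees between `1` and `e₀` in `n + 1`
variables over the algebraic closure of `K`, at most `c` of which vanish at any point of the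
projective space of dimension `n`.  There is a nonzero form `D` over the algebraic closure of `K` with
the following properties.
* For every embedding `τ` of the algebraic closure in the field of complex numbers every nonconstant
  entire curve in projective space which meets all the hypersurfaces `F j = 0` only with
  multiplicities at least 2 is contained in the hypersurface `D = 0`.
* Let `X` be any projective variety over `K` (given by the forms in `S`, singular or reducible ones
  included) with a morphism `g` to the projective space, finite or not, for which the pull backs of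
  all the `F j = 0` have only multiplicities at least 2, and `Z` the inverse image of `D = 0` under
  `g`.  If `g` is onto, `Z` is not all of `X`.  For every `τ` every entire curve in `X_τ` is contained
  in `Z_τ` or in a fibre of `g`.  If `g` is finite, every nonconstant entire curve in `X_τ` is
  contained in `Z_τ`, and `X_τ` is Kobayashi hyperbolic if and only if `Z_τ` is.
* If `g` is finite and `n ≤ 2`, or if for some `d ≤ 1` the dimension of `X` is at most `d + 1` and the
  inverse images under `g` of all the hypersurfaces have dimension at most `d` (for example if `X` is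
  a surface, irreducible over the algebraic closure of `K`, and `g` is onto, with `n ≤ 2` and
  `d = 1`), then for every embedding `σ` of `K` the variety `X_σ` is Kobayashi hyperbolic if and only if `X` contains no nonconstant image of a
  plane cubic over the algebraic closure of `K`; and if `X(L)` is finite for every finite extension
  `L` of `K`, then `X_σ` is Kobayashi hyperbolic for every `σ`. -/
theorem result (n e₀ c : ℕ) (hn : 1 ≤ n) : ∃ N₀ : ℕ, ∀ N : ℕ, N₀ ≤ N →
    ∀ (K : Type) [Field K] [NumberField K]
      (F : Fin (N + 1) → MvPolynomial (Fin (n + 1)) (AlgebraicClosure K)),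
      (∀ j, ∃ e, 1 ≤ e ∧ e ≤ e₀ ∧ (F j).IsHomogeneous e) → (∀ j, Squarefree (F j)) →
      (∀ w : Fin (n + 1) → AlgebraicClosure K, w ≠ 0 → {j | eval w (F j) = 0}.ncard ≤ c) →
      ∃ D : MvPolynomial (Fin (n + 1)) (AlgebraicClosure K),
        D ≠ 0 ∧ (∃ e, D.IsHomogeneous e) ∧
        (∀ (τ : AlgebraicClosure K →+* ℂ) (f : ℂ → PSpace ℂ n), HolomorphicOn f Set.univ →
          (∃ a b, f a ≠ f b) → (∀ j, Tangent f (map τ (F j))) →
          ∀ z, eval₂ τ (f z).rep D = 0) ∧
        ∀ (m : ℕ) (S : Set (MvPolynomial (Fin (m + 1)) K)),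
          (∀ G ∈ S, ∃ e, G.IsHomogeneous e) →
          ∀ g : Mor K m n S, (∀ j, g.MultGE 2 (F j)) →
            (g.Onto → ∃ v : Fin (m + 1) → AlgebraicClosure K, v ≠ 0 ∧ OnX S v ∧
              ∃ s ∈ g.tuples, eval (fun c => eval v (s c)) D ≠ 0) ∧
            (∀ τ : AlgebraicClosure K →+* ℂ,
              (∀ f : ℂ → PSpace ℂ m, HolomorphicOn f Set.univ →
                (∀ z, f z ∈ complexPoints S (τ.comp (algebraMap K (AlgebraicClosure K)))) →
                (∀ z, f z ∈ g.Exc D τ) ∨ g.InFibre τ f) ∧
              (g.Finite → (∀ f : ℂ → PSpace ℂ m, HolomorphicOn f Set.univ →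
                  (∀ z, f z ∈ complexPoints S (τ.comp (algebraMap K (AlgebraicClosure K)))) →
                  (∃ a b, f a ≠ f b) → ∀ z, f z ∈ g.Exc D τ) ∧
                (KobayashiHyperbolic
                    (complexPoints S (τ.comp (algebraMap K (AlgebraicClosure K)))) ↔
                  KobayashiHyperbolic (g.Exc D τ)))) ∧
            (((g.Finite ∧ n ≤ 2) ∨ ∃ d ≤ 1, g.Thin d) →
              (∀ σ : K →+* ℂ, KobayashiHyperbolic (complexPoints S σ) ↔ ¬ CubicImage S) ∧
              ((∀ (L : Type) [Field L] [Algebra K L] [FiniteDimensional K L],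
                  (points S L).Finite) →
                ∀ σ : K →+* ℂ, KobayashiHyperbolic (complexPoints S σ))) := by
  obtain ⟨N₁, h1⟩ := Pool.MPH.all_HG n e₀ c hn
  obtain ⟨N₂, h2⟩ := Pool.MPH.all_HL n e₀ c hn
  refine ⟨max N₁ N₂, fun N hN K _ _ F hF hsq hc => ?_⟩
  obtain ⟨E, D, hD, hD0, h3, h4⟩ := h1 N ((le_max_left _ _).trans hN) K F hF hsq hc
  refine ⟨D, hD0, ⟨E, hD⟩, fun τ f hf hne ht => h3 τ f hf ht hne, fun m S hS g hm => ?_⟩
  let g' : Pool.ThmP.Mor K (AlgebraicClosure K) m n S :=
    ⟨g.tuples, g.homogeneous, g.compatible, g.defined⟩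
  have hm' : ∀ j, Pool.ThmP.FullF g' 2 (F j) := hm
  obtain ⟨h5, h6⟩ := h4 m S hS g' hm'
  refine ⟨h5, h6, fun hg => ?_⟩
  have hg' : (g'.Finite ∧ n ≤ 2) ∨ ∃ d ≤ 1, g'.Thin d := hg
  obtain ⟨h7, h8⟩ := h2 N ((le_max_right _ _).trans hN) K F hF hsq hc m S hS g' hm' hg'
  refine ⟨h7, fun hL σ => (h7 σ).2 fun hC => ?_⟩
  obtain ⟨L, i1, i2, i3, hinf⟩ := h8 hC
  exact hinf (hL L)

end Pool.Agent.Results.MP_f82ddf_nt.RamifiedHypersurfaces
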