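import Pool.Agent.Work.MP_f82ddf_nt.Sparse

/-!
# Lang's equivalence for varieties defined by sparse forms
-/

open Pool.Agent.Work.MP_f82ddf_nt

namespace Pool.Agent.Work.MP_f82ddf_nt.Withdrawn.SparseVariables

/-- Let `X` in projective `n`-space over a number field `K` be given by `r ≥ 1` forms of any
degrees; put `s = r + 1`.  In some coordinates over the algebraic closure let `ρ k` be the
proportion of the `k`-element sets of variables which are exactly the set of variables of a
monomial of one of the forms.  Put `D = n (1 - ρ 2)` and `c = (n + 1) (D)_s / (n + 1)_s` with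
falling factorials.  If
`(n + 1 - s)_s * ∑_{k = 3}^{2 s} (binom (2 s) k - 2 binom s k) * ρ k < (c)_s`,
then Lang's equivalence holds for `X` and every embedding `σ`, and `X_σ` is not Kobayashi
hyperbolic. -/
theorem result (K : Type) [Field K] [NumberField K] (n : ℕ)
    (S : Finset (MvPolynomial (Fin (n + 1)) K)) (hS0 : S.Nonempty)
    (hS : ∀ F ∈ S, ∃ d, 1 ≤ d ∧ F.IsHomogeneous d)
    (g : Matrix.GeneralLinearGroup (Fin (n + 1)) (AlgebraicClosure K))
    (s : ℕ) (hs : s = S.card + 1) (D c : ℝ)
    (hD : D = n * (1 - density (subst g '' (S : Set (MvPolynomial (Fin (n + 1)) K))) 2))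
    (hc : c = (n + 1) * fall s D / fall s (n + 1))
    (h : fall s (n + 1 - s) * ∑ k ∈ Finset.Icc 3 (2 * s),
        (((2 * s).choose k : ℝ) - 2 * (s.choose k : ℝ)) *
          density (subst g '' (S : Set (MvPolynomial (Fin (n + 1)) K))) k < fall s c)
    (σ : K →+* ℂ) :
    LangEquivalence (S : Set (MvPolynomial (Fin (n + 1)) K)) σ ∧
      ¬ KobayashiHyperbolic (complexPoints (S : Set (MvPolynomial (Fin (n + 1)) K)) σ) := by
  obtain ⟨C⟩ := exists_curve_of_sparse S hS g s hs hS0 hD hc h
  refine C.both_fail (fun F hF => ?_) σ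
  obtain ⟨d, _, hd⟩ := hS F hF
  exact ⟨d, hd⟩

end Pool.Agent.Work.MP_f82ddf_nt.Withdrawn.SparseVariables
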