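import Pool.Agent.Work.MP_f82ddf_nt.Waring

/-!
# Half of Lang's equivalence for varieties given by forms of small Waring rank
-/

open Pool.Agent.Work.MP_f82ddf_nt

namespace Pool.Agent.Results.MP_f82ddf_nt.WaringRank

/-- Let `X` in projective `n`-space over a number field `K` be given by forms `F` each of which
has degree `d` and Waring rank at most `r` over the algebraic closure of `K`, with
`r (r - 2) < d`; here `d`, `r` and the linear forms may depend on `F`.  Either `X` contains a line
over the algebraic closure of `K`, and then for all `σ` both sides of Lang's equivalence fail; or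
it does not, and then `X_σ` is Kobayashi hyperbolic for all `σ`.  Hence if `X(L)` is finite for
all finite extensions `L` of `K`, then `X_σ` is Kobayashi hyperbolic. -/
theorem result (K : Type) [Field K] [NumberField K] (n : ℕ)
    (S : Set (MvPolynomial (Fin (n + 1)) K))
    (hS : ∀ F ∈ S, ∃ d r, F.IsHomogeneous d ∧ WaringRankLE F d r ∧ r * (r - 2) < d) :
    (ContainsLine S ∧ ∀ σ : K →+* ℂ, ¬ KobayashiHyperbolic (complexPoints S σ) ∧
      ∃ (L : Type) (_ : Field L) (_ : Algebra K L) (_ : FiniteDimensional K L),
        (points S L).Infinite) ∨
    (¬ ContainsLine S ∧ ∀ σ : K →+* ℂ, KobayashiHyperbolic (complexPoints S σ)) :=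
  waring hS

end Pool.Agent.Results.MP_f82ddf_nt.WaringRank
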